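import Mathlib
import Pool.Agent.Lib.MP_c081e6_an.Defs
import Pool.Agent.Lib.MP_c081e6_an.Core

set_option autoImplicit false

open Filter Topology
open Pool.Agent.Lib.MP_c081e6_an

namespace Pool.Agent.Results.MP_c081e6_an.GammaLeThree

/-- **Answer to Q1 (negative).** For every dimension `n ≥ 8` and every exponent `1 < p < 2` the
degree of regularity satisfies `γ(n,p) ≤ 3`. In particular it is false that `γ(n,p) → ∞` as
`p → 1⁺` for every `n ≥ 3`. -/
theorem result : (∀ n : ℕ, 8 ≤ n → ∀ p : ℝ, 1 < p → p < 2 → gammaDeg n p ≤ 3) ∧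
    ¬ (∀ n : ℕ, 3 ≤ n → Tendsto (gammaDeg n) (𝓝[>] 1) (𝓝 ⊤)) :=
  main

end Pool.Agent.Results.MP_c081e6_an.GammaLeThree
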